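import Pool.Agent.Helper37.KD.DefsC
import Pool.Agent.Helper37.KD.St.A6

/-! KD Part I, piece D5 -/

namespace KD.I.D5

open Finset KD

theorem n1_neg {d N : ℕ} [NeZero N] (x : V d N) : n1 (-x) = n1 x := by
  unfold n1
  refine Finset.sum_congr rfl (fun i _ => ?_)
  rw [Pi.neg_apply, ZMod.natAbs_valMinAbs_neg]

theorem nrm_neg {d N : ℕ} [NeZero N] (r R : ℝ) (w : GG d N) : nrm r R (-w) = nrm r R w := by
  unfold nrm
  rw [Prod.fst_neg, Prod.snd_neg, n1_neg, n1_neg]

theorem nrm_nonneg {d N : ℕ} {r R : ℝ} (hr : 0 ≤ r) (hR : 0 ≤ R) (w : GG d N) : 0 ≤ nrm r R w := by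
  have h : ∀ x : V d N, 0 ≤ n1 x := fun x => Finset.sum_nonneg (fun i _ => Nat.cast_nonneg _)
  exact add_nonneg (div_nonneg (h _) hR) (div_nonneg (h _) hr)

/-- I.7, first part: entropy increment by Hellinger increments (`u = u_k`, `k ≥ 1`) -/
theorem entropy_incr_he {d : ℕ} {s c0 C0 C1 : ℝ} (E : Env d s c0 C0 C1) {μ : E.G → ℝ} (hμ : IsP μ)
    {k : ℕ} (hk : k + 1 ≤ E.K) :
    Ht (lev E.q μ (k + 1)) - Ht (lev E.q μ (k + 2)) ≤
      4 * ∑ w, E.q (k + 1) w * (1 + E.nm k w) * he (lev E.q μ (k + 1)) w := by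
  set u := lev E.q μ (k + 1) with hu
  have hupos : ∀ z, 0 < u z := fun z => E.u_pos hμ (by omega) z
  have hq : ∀ z, 0 < E.q (k + 1) z := fun z => E.q_pos hk z
  have hq1 : ∑ z, E.q (k + 1) z = 1 := E.q_mass hk
  have hU : lev E.q μ (k + 2) = cv (E.q (k + 1)) u := rfl
  rw [hU]
  -- pointwise
  have key : ∀ z, (∑ w, E.q (k + 1) w * (u (z - w) * Real.log (u (z - w))))
      - cv (E.q (k + 1)) u z * Real.log (cv (E.q (k + 1)) u z) ≤
      ∑ w, E.q (k + 1) w * (4 * (1 + E.nm k w) * (√(u (z - w)) - √(u z)) ^ 2) := by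
    intro z
    have hc := hupos z
    have hT : 0 < cv (E.q (k + 1)) u z := cv_pos hq (fun y => (hupos y).le)
      (by rw [hu, E.u_sum hμ (by omega)]; exact one_pos) z
    have h1 : 0 ≤ cv (E.q (k + 1)) u z * (Real.log (cv (E.q (k + 1)) u z) - Real.log (u z))
        - cv (E.q (k + 1)) u z + u z := by
      have h2 := Real.log_le_sub_one_of_pos (div_pos hc hT)
      rw [Real.log_div hc.ne' hT.ne'] at h2
      have h3 := mul_le_mul_of_nonneg_left h2 hT.le
      have h4 : cv (E.q (k + 1)) u z * (u z / cv (E.q (k + 1)) u z - 1)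
          = u z - cv (E.q (k + 1)) u z := by
        field_simp
      rw [h4] at h3
      linarith
    have h5 : ∑ w, E.q (k + 1) w * (u (z - w) * (Real.log (u (z - w)) - Real.log (u z))
        - u (z - w) + u z) = (∑ w, E.q (k + 1) w * (u (z - w) * Real.log (u (z - w))))
        - cv (E.q (k + 1)) u z * Real.log (u z) - cv (E.q (k + 1)) u z + u z := by
      have e1 : ∀ w, E.q (k + 1) w * (u (z - w) * (Real.log (u (z - w)) - Real.log (u z))
          - u (z - w) + u z) = E.q (k + 1) w * (u (z - w) * Real.log (u (z - w)))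
          - E.q (k + 1) w * u (z - w) * Real.log (u z) - E.q (k + 1) w * u (z - w)
          + E.q (k + 1) w * u z := fun w => by ring
      rw [Finset.sum_congr rfl (fun w _ => e1 w), Finset.sum_add_distrib, Finset.sum_sub_distrib,
        Finset.sum_sub_distrib, ← Finset.sum_mul, ← Finset.sum_mul, hq1, one_mul]
      rfl
    have h6 : ∑ w, E.q (k + 1) w * (u (z - w) * (Real.log (u (z - w)) - Real.log (u z))
        - u (z - w) + u z) ≤
        ∑ w, E.q (k + 1) w * (4 * (1 + E.nm k w) * (√(u (z - w)) - √(u z)) ^ 2) := by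
      refine Finset.sum_le_sum (fun w _ => mul_le_mul_of_nonneg_left ?_ (hq w).le)
      refine E5 (u (z - w)) (u z) (E.nm k w) (hupos _) hc
        (nrm_nonneg (by positivity) (E.R_pos k).le w) ?_
      have h7 := E.u_lip hμ (k := k) (by omega) z (-w)
      rw [← hu, ← sub_eq_add_neg] at h7
      have h8 := Real.log_le_log (hupos _) h7
      rw [Real.log_mul (Real.exp_pos _).ne' hc.ne', Real.log_exp] at h8
      have h9 : E.nm k (-w) = E.nm k w := nrm_neg _ _ _
      rw [h9] at h8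
      linarith
    linarith
  have hL : Ht u = ∑ z, ∑ w, E.q (k + 1) w * (u (z - w) * Real.log (u (z - w))) := by
    rw [Finset.sum_comm]
    have : ∀ w, ∑ z, E.q (k + 1) w * (u (z - w) * Real.log (u (z - w))) = E.q (k + 1) w * Ht u := by
      intro w
      rw [← Finset.mul_sum, sum_shift_sub (fun z => u z * Real.log (u z)) w]
      rfl
    rw [Finset.sum_congr rfl (fun w _ => this w), ← Finset.sum_mul, hq1, one_mul]
  have hR : 4 * ∑ w, E.q (k + 1) w * (1 + E.nm k w) * he u w =
      ∑ z, ∑ w, E.q (k + 1) w * (4 * (1 + E.nm k w) * (√(u (z - w)) - √(u z)) ^ 2) := by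
    rw [Finset.sum_comm, Finset.mul_sum]
    refine Finset.sum_congr rfl (fun w _ => ?_)
    have : he u w = ∑ z, (√(u (z - w)) - √(u z)) ^ 2 := by
      unfold he
      rw [← sum_shift_sub (fun z => (√(u (z + w)) - √(u z)) ^ 2) w]
      refine Finset.sum_congr rfl (fun z _ => ?_)
      simp only [sub_add_cancel]
      ring
    rw [this, Finset.mul_sum, Finset.mul_sum]
    exact Finset.sum_congr rfl (fun z _ => by ring)
  have hHt : Ht (cv (E.q (k + 1)) u) =
      ∑ z, cv (E.q (k + 1)) u z * Real.log (cv (E.q (k + 1)) u z) := rfl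
  rw [hR, hL, hHt, ← Finset.sum_sub_distrib]
  exact Finset.sum_le_sum (fun z _ => key z)

end KD.I.D5
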