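import Pool.Agent.Helper37.KD.DefsC

/-! KD Part I, piece F1 -/

namespace KD.I.F1

open Finset KD

/-- adding a nonnegative mass increases the squared Hellinger distance by at most the mass -/
theorem hell_add {G : Type*} [Fintype G] (u g ψ : G → ℝ) (hu : ∀ z, 0 ≤ u z) (hg : ∀ z, 0 ≤ g z)
    (hψ : ∀ z, 0 ≤ ψ z) :
    ∑ z, (√(u z + g z) - ψ z) ^ 2 ≤ ∑ z, (√(u z) - ψ z) ^ 2 + ∑ z, g z := by
  rw [← Finset.sum_add_distrib]
  refine Finset.sum_le_sum (fun z _ => ?_)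
  have h1 : √(u z) ≤ √(u z + g z) := Real.sqrt_le_sqrt (by linarith [hg z])
  have h2 : √(u z + g z) ^ 2 = u z + g z := Real.sq_sqrt (add_nonneg (hu z) (hg z))
  have h3 : √(u z) ^ 2 = u z := Real.sq_sqrt (hu z)
  have h4 := mul_le_mul_of_nonneg_right h1 (hψ z)
  nlinarith

theorem l2_tri {G : Type*} [Fintype G] (f g : G → ℝ) :
    √(∑ z, (f z + g z) ^ 2) ≤ √(∑ z, f z ^ 2) + √(∑ z, g z ^ 2) := by
  have := norm_add_le (WithLp.toLp 2 f : EuclideanSpace ℝ G) (WithLp.toLp 2 g)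
  simp only [EuclideanSpace.norm_eq, PiLp.add_apply, Real.norm_eq_abs, sq_abs] at this
  exact this

/-- `‖√v - √w‖ ≤ ‖(v-w)/√u‖` if `w ≥ u > 0`, `v ≥ 0`, hence the triangle inequality below -/
theorem hell_tri {G : Type*} [Fintype G] (u v w ψ : G → ℝ) (hu : ∀ z, 0 < u z) (hw : ∀ z, u z ≤ w z)
    (hv : ∀ z, 0 ≤ v z) :
    √(∑ z, (√(v z) - ψ z) ^ 2) ≤ √(∑ z, (√(w z) - ψ z) ^ 2) + √(∑ z, (v z - w z) ^ 2 / u z) := by
  have h0 := l2_tri (fun z => √(w z) - ψ z) (fun z => √(v z) - √(w z))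
  have h1 : ∑ z, (√(w z) - ψ z + (√(v z) - √(w z))) ^ 2 = ∑ z, (√(v z) - ψ z) ^ 2 :=
    Finset.sum_congr rfl (fun z _ => by ring)
  rw [h1] at h0
  refine h0.trans (add_le_add_right (Real.sqrt_le_sqrt (Finset.sum_le_sum (fun z _ => ?_))) _)
  have hwz : 0 < w z := (hu z).trans_le (hw z)
  rw [le_div_iff₀ (hu z)]
  have e1 : √(v z) ^ 2 = v z := Real.sq_sqrt (hv z)
  have e2 : √(w z) ^ 2 = w z := Real.sq_sqrt hwz.le
  have e3 : v z - w z = (√(v z) - √(w z)) * (√(v z) + √(w z)) := by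
    have : (√(v z) - √(w z)) * (√(v z) + √(w z)) = √(v z) ^ 2 - √(w z) ^ 2 := by ring
    rw [this, e1, e2]
  rw [e3, mul_pow]
  refine mul_le_mul_of_nonneg_left ?_ (sq_nonneg _)
  have a0 : 0 ≤ √(v z) := Real.sqrt_nonneg _
  have b0 : 0 ≤ √(w z) := Real.sqrt_nonneg _
  have : √(w z) ^ 2 ≤ (√(v z) + √(w z)) ^ 2 := by nlinarith [mul_nonneg a0 b0]
  linarith [hw z]

end KD.I.F1
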